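import Mathlib

set_option autoImplicit false

/-!
# Inequalities for the sums of coefficients for the chromatic h-polynomial
-/

open Finset PowerSeries

namespace Pool.Agent.Results.MP_f4be1e_co.ChromaticH

noncomputable section

open scoped Classical

/-- The coefficient of `z ^ k` in `(1 - z) ^ (d + 1) * ∑ N(n) z ^ n`. -/
def hc (d : ℕ) (N : ℕ → ℤ) (k : ℕ) : ℤ :=
  coeff k ((1 - X : PowerSeries ℤ) ^ (d + 1) * PowerSeries.mk N)

lemma hc_add (d : ℕ) (N M : ℕ → ℤ) (k : ℕ) :
    hc d (fun n => N n + M n) k = hc d N k + hc d M k := by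
  unfold hc
  rw [← map_add, ← mul_add]
  congr 2

lemma hc_sub (d : ℕ) (N M : ℕ → ℤ) (k : ℕ) :
    hc d (fun n => N n - M n) k = hc d N k - hc d M k := by
  unfold hc
  rw [← map_sub, ← mul_sub]
  congr 2

lemma hc_zero (d k : ℕ) : hc d (fun _ => 0) k = 0 := by
  have := hc_sub d (fun _ => 0) (fun _ => 0) k
  simpa using this

/-- Nonnegative coefficients, and zero in degrees larger than `d`. -/
def Good (d : ℕ) (N : ℕ → ℤ) : Prop := ∀ k, 0 ≤ hc d N k ∧ (d < k → hc d N k = 0)

lemma Good.add {d : ℕ} {N M : ℕ → ℤ} (h : Good d N) (h' : Good d M) :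
    Good d (fun n => N n + M n) := by
  intro k
  rw [hc_add]
  refine ⟨add_nonneg (h k).1 (h' k).1, fun hk => ?_⟩
  rw [(h k).2 hk, (h' k).2 hk, add_zero]

lemma good_zero (d : ℕ) : Good d (fun _ => 0) := fun k => by
  rw [hc_zero]
  exact ⟨le_rfl, fun _ => rfl⟩

/-- The chain count. -/
lemma good_choose (d w : ℕ) (hw : w ≤ d) : Good d (fun n => ((n + w).choose d : ℤ)) := by
  have h1 : (PowerSeries.mk fun n => (((n + w).choose d : ℕ) : ℤ)) =
      X ^ (d - w) * PowerSeries.mk fun n => (((d + n).choose d : ℕ) : ℤ) := by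
    ext n
    rw [coeff_mk, coeff_X_pow_mul']
    by_cases hn : d - w ≤ n
    · rw [if_pos hn, coeff_mk]
      congr 2
      omega
    · rw [if_neg hn, Nat.choose_eq_zero_of_lt (by omega)]
      rfl
  have h2 : (1 - X : PowerSeries ℤ) ^ (d + 1) *
      (PowerSeries.mk fun n => (((n + w).choose d : ℕ) : ℤ)) = X ^ (d - w) := by
    rw [h1, mul_left_comm, mul_comm ((1 - X : PowerSeries ℤ) ^ (d + 1)),
      mk_add_choose_mul_one_sub_pow_eq_one, mul_one]
  intro k
  unfold hc
  rw [h2, coeff_X_pow]
  constructor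
  · split_ifs <;> norm_num
  · intro hk
    rw [if_neg (by omega)]

/-- Counting functions satisfying a chain of weak and strict inequalities. -/
lemma chain_count (d n : ℕ) (w : ℕ → ℕ) (hw0 : w 0 = 0)
    (hw : ∀ i, w i ≤ w (i + 1) ∧ w (i + 1) ≤ w i + 1) :
    Fintype.card {c : Fin (d + 1) → Fin n // StrictMono fun i => (c i : ℕ) + w i} =
      (n + w d).choose (d + 1) := by
  have hwle : ∀ i, w i ≤ i := by
    intro i
    induction i with
    | zero => omega
    | succ i ih => have := hw i; omega
  have hwm : Monotone w := monotone_nat_of_le_succ fun i => (hw i).1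
  have hwd : ∀ i j, i ≤ j → w j ≤ w i + (j - i) := by
    intro i j hij
    induction j, hij using Nat.le_induction with
    | base => omega
    | succ j hij ih => have := hw j; omega
  have h1 : Fintype.card (Fin (d + 1) ↪o Fin (n + w d)) = (n + w d).choose (d + 1) := by
    rw [Fintype.card_congr (Set.powersetCard.ofFinEmbEquiv (n := d + 1) (I := Fin (n + w d))),
      ← Nat.card_eq_fintype_card, Set.powersetCard.card, Nat.card_eq_fintype_card,
      Fintype.card_fin]
  rw [← h1]
  apply Fintype.card_congr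
  refine
    { toFun := fun c => OrderEmbedding.ofStrictMono (fun i => ⟨(c.1 i : ℕ) + w i, ?_⟩) ?_
      invFun := fun b => ⟨fun i => ⟨(b i : ℕ) - w i, ?_⟩, ?_⟩
      left_inv := ?_
      right_inv := ?_ }
  · have h2 := (c.1 i).2
    have h3 := hwm (show (i : ℕ) ≤ d by have := i.2; omega)
    omega
  · intro i j hij
    exact c.2 hij
  · have hb : ∀ j : ℕ, ∀ (hj : (i : ℕ) + j < d + 1), (b i : ℕ) + j ≤ b ⟨i + j, hj⟩ := by
      intro j
      induction j with
      | zero => intro hj; simp
      | succ j ih =>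
        intro hj
        have h2 := ih (by omega)
        have h3 : b ⟨i + j, by omega⟩ < b ⟨i + (j + 1), hj⟩ := b.strictMono (by
          rw [Fin.mk_lt_mk]; omega)
        rw [Fin.lt_def] at h3
        omega
    have h2 := hb (d - i) (by have := i.2; omega)
    have h3 := (b ⟨i + (d - i), by have := i.2; omega⟩).2
    have h4 := hwd i d (by have := i.2; omega)
    have h5 := i.2
    have hb' : ∀ i : ℕ, ∀ (hi : i < d + 1), i ≤ b ⟨i, hi⟩ := by
      intro i
      induction i with
      | zero => intro hi; omega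
      | succ i ih =>
        intro hi
        have h2 := ih (by omega)
        have h3 : b ⟨i, by omega⟩ < b ⟨i + 1, hi⟩ := b.strictMono (by
          rw [Fin.mk_lt_mk]; omega)
        rw [Fin.lt_def] at h3
        omega
    have h6 := hb' i i.2
    have h7 := hwle i
    simp only [Fin.eta] at h6
    omega
  · have hb : ∀ i : ℕ, ∀ (hi : i < d + 1), i ≤ b ⟨i, hi⟩ := by
      intro i
      induction i with
      | zero => intro hi; omega
      | succ i ih =>
        intro hi
        have h2 := ih (by omega)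
        have h3 : b ⟨i, by omega⟩ < b ⟨i + 1, hi⟩ := b.strictMono (by
          rw [Fin.mk_lt_mk]; omega)
        rw [Fin.lt_def] at h3
        omega
    intro i j hij
    have h2 := hb i i.2
    have h3 := hb j j.2
    have h4 := hwle i
    have h5 := hwle j
    have h6 : b i < b j := b.strictMono hij
    rw [Fin.lt_def] at h6
    simp only [Fin.eta] at h2 h3
    simp only
    omega
  · intro c
    apply Subtype.ext
    funext i
    apply Fin.ext
    simp [OrderEmbedding.ofStrictMono]
  · intro b
    have hb : ∀ i : ℕ, ∀ (hi : i < d + 1), i ≤ b ⟨i, hi⟩ := by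
      intro i
      induction i with
      | zero => intro hi; omega
      | succ i ih =>
        intro hi
        have h2 := ih (by omega)
        have h3 : b ⟨i, by omega⟩ < b ⟨i + 1, hi⟩ := b.strictMono (by
          rw [Fin.mk_lt_mk]; omega)
        rw [Fin.lt_def] at h3
        omega
    apply DFunLike.ext
    intro i
    apply Fin.ext
    have h2 := hb i i.2
    have h4 := hwle i
    simp only [Fin.eta] at h2
    simp [OrderEmbedding.ofStrictMono]
    omega

/-! ### Orders of constraints -/

/-- The number of functions `V → {0, …, n - 1}` with a given property. -/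
def cnt {V : Type*} [Fintype V] (P : (V → ℕ) → Prop) (n : ℕ) : ℤ :=
  ((univ.filter fun φ : V → Fin n => P fun v => (φ v : ℕ)).card : ℤ)

lemma cnt_split {V : Type*} [Fintype V] (P Q : (V → ℕ) → Prop) (n : ℕ) :
    cnt P n = cnt (fun φ => P φ ∧ Q φ) n + cnt (fun φ => P φ ∧ ¬ Q φ) n := by
  unfold cnt
  rw [← Finset.card_filter_add_card_filter_not (s := univ.filter fun φ : V → Fin n =>
    P fun v => (φ v : ℕ)) (fun φ => Q fun v => (φ v : ℕ)), Finset.filter_filter,
    Finset.filter_filter]
  push_cast
  rfl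

lemma cnt_congr {V : Type*} [Fintype V] {P Q : (V → ℕ) → Prop} (h : ∀ φ, P φ ↔ Q φ) :
    cnt P = cnt Q := by
  have : P = Q := funext fun φ => propext (h φ)
  rw [this]

/-- strict orders -/
structure SPO {V : Type*} (R : V → V → Prop) : Prop where
  irr : ∀ u, ¬ R u u
  tr : ∀ u v w, R u v → R v w → R u w

/-- The smallest transitive relation containing `R` and the pair `(a, b)`. -/
def ext {V : Type*} (R : V → V → Prop) (a b : V) (u v : V) : Prop :=
  R u v ∨ ((u = a ∨ R u a) ∧ (v = b ∨ R b v))

lemma SPO.ext {V : Type*} {R : V → V → Prop} (h : SPO R) {a b : V} (hab : a ≠ b)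
    (hba : ¬ R b a) : SPO (ext R a b) := by
  constructor
  · rintro u (h1 | ⟨h1, h2⟩)
    · exact h.irr u h1
    · rcases h1 with rfl | h1
      · rcases h2 with h2 | h2
        · exact hab h2
        · exact hba h2
      · rcases h2 with rfl | h2
        · exact hba h1
        · exact hba (h.tr _ _ _ h2 h1)
  · rintro u v w (h1 | ⟨h1, h2⟩) (h3 | ⟨h3, h4⟩)
    · exact Or.inl (h.tr _ _ _ h1 h3)
    · refine Or.inr ⟨Or.inr ?_, h4⟩
      rcases h3 with rfl | h3
      · exact h1
      · exact h.tr _ _ _ h1 h3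
    · refine Or.inr ⟨h1, Or.inr ?_⟩
      rcases h2 with rfl | h2
      · exact h3
      · exact h.tr _ _ _ h2 h3
    · exact Or.inr ⟨h1, h4⟩

/-- incomparable pairs -/
def inc {V : Type*} [Fintype V] (R : V → V → Prop) : Finset (V × V) :=
  univ.filter fun p => p.1 ≠ p.2 ∧ ¬ R p.1 p.2 ∧ ¬ R p.2 p.1

lemma inc_lt {V : Type*} [Fintype V] {R : V → V → Prop} {a b : V} (hab : a ≠ b)
    (h1 : ¬ R a b) (h2 : ¬ R b a) : (inc (ext R a b)).card < (inc R).card := by
  apply Finset.card_lt_card
  rw [Finset.ssubset_iff_of_subset]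
  · refine ⟨(a, b), ?_, ?_⟩
    · simp [inc, hab, h1, h2]
    · simp [inc, ext]
  · intro p hp
    simp only [inc, mem_filter, mem_univ, true_and] at hp ⊢
    exact ⟨hp.1, fun h => hp.2.1 (Or.inl h), fun h => hp.2.2 (Or.inl h)⟩

/-- `φ` is weakly increasing along `R`, and strictly along the descents of `ω`. -/
def Val {V : Type*} (R : V → V → Prop) (ω : V → ℕ) (φ : V → ℕ) : Prop :=
  ∀ u v, R u v → φ u ≤ φ v ∧ (ω v < ω u → φ u < φ v)

lemma val_ext {V : Type*} (R : V → V → Prop) (ω : V → ℕ) {a b : V} (hab : ω a < ω b)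
    (φ : V → ℕ) : (Val R ω φ ∧ φ a ≤ φ b) ↔ Val (ext R a b) ω φ := by
  constructor
  · rintro ⟨h, h1⟩ u v (h2 | ⟨h2, h3⟩)
    · exact h u v h2
    · have e1 : φ u ≤ φ a ∧ (ω a < ω u → φ u < φ a) := by
        rcases h2 with rfl | h2
        · exact ⟨le_rfl, fun h => absurd h (lt_irrefl _)⟩
        · exact h _ _ h2
      have e2 : φ b ≤ φ v ∧ (ω v < ω b → φ b < φ v) := by
        rcases h3 with rfl | h3
        · exact ⟨le_rfl, fun h => absurd h (lt_irrefl _)⟩
        · exact h _ _ h3
      refine ⟨by omega, fun h4 => ?_⟩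
      by_cases h5 : ω a < ω u
      · have := e1.2 h5
        omega
      · have := e2.2 (by omega)
        omega
  · intro h
    exact ⟨fun u v h1 => h u v (Or.inl h1), (h a b (Or.inr ⟨Or.inl rfl, Or.inl rfl⟩)).1⟩

lemma val_ext' {V : Type*} (R : V → V → Prop) (ω : V → ℕ) {a b : V} (hab : ω a < ω b)
    (φ : V → ℕ) : (Val R ω φ ∧ ¬ φ a ≤ φ b) ↔ Val (ext R b a) ω φ := by
  constructor
  · rintro ⟨h, h1⟩ u v (h2 | ⟨h2, h3⟩)
    · exact h u v h2
    · have e1 : φ u ≤ φ b := by
        rcases h2 with rfl | h2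
        · exact le_rfl
        · exact (h _ _ h2).1
      have e2 : φ a ≤ φ v := by
        rcases h3 with rfl | h3
        · exact le_rfl
        · exact (h _ _ h3).1
      exact ⟨by omega, fun _ => by omega⟩
  · intro h
    have h1 := (h b a (Or.inr ⟨Or.inl rfl, Or.inl rfl⟩)).2 hab
    exact ⟨fun u v h1 => h u v (Or.inl h1), by omega⟩

/-- total orders -/
lemma good_total {V : Type*} [Fintype V] [Nonempty V] (R : V → V → Prop) (hR : SPO R)
    (ht : ∀ u v, u ≠ v → R u v ∨ R v u) (ω : V → ℕ) (hω : Function.Injective ω) :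
    Good (Fintype.card V) (cnt (Val R ω)) := by
  set r : V → ℕ := fun v => (univ.filter fun u => R u v).card with hr
  have hrlt : ∀ u v, R u v → r u < r v := by
    intro u v huv
    apply Finset.card_lt_card
    rw [Finset.ssubset_iff_of_subset]
    · exact ⟨u, by simp [huv], by simp [hR.irr]⟩
    · intro x hx
      simp only [mem_filter, mem_univ, true_and] at hx ⊢
      exact hR.tr _ _ _ hx huv
  have hrinj : Function.Injective r := by
    intro u v huv
    by_contra hne
    rcases ht u v hne with h | h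
    · exact absurd huv (hrlt u v h).ne
    · exact absurd huv (hrlt v u h).ne'
  have hrR : ∀ u v, r u < r v → R u v := by
    intro u v huv
    have hne : u ≠ v := by rintro rfl; exact lt_irrefl _ huv
    rcases ht u v hne with h | h
    · exact h
    · exact absurd huv (hrlt v u h).not_gt
  obtain ⟨D, hD⟩ : ∃ D, Fintype.card V = D + 1 :=
    ⟨Fintype.card V - 1, by have := Fintype.card_pos (α := V); omega⟩
  have hrb : ∀ v, r v < D + 1 := by
    intro v
    rw [← hD, ← Finset.card_univ]
    apply Finset.card_lt_card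
    rw [Finset.ssubset_iff_of_subset (Finset.subset_univ _)]
    exact ⟨v, mem_univ _, by simp [hR.irr]⟩
  set e : V ≃ Fin (D + 1) := Equiv.ofBijective (fun v => ⟨r v, hrb v⟩) (by
    rw [Fintype.bijective_iff_injective_and_card]
    refine ⟨fun u v huv => hrinj (by simpa using huv), by rw [hD, Fintype.card_fin]⟩) with he
  have hev : ∀ v, (e v : ℕ) = r v := fun v => rfl
  set ω' : ℕ → ℕ := fun i => if h : i < D + 1 then ω (e.symm ⟨i, h⟩) else 0 with hω'
  set w : ℕ → ℕ := fun i => Nat.rec 0 (fun j x => x + if ω' j < ω' (j + 1) then 1 else 0) i with hw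
  have hw0 : w 0 = 0 := rfl
  have hws : ∀ i, w (i + 1) = w i + if ω' i < ω' (i + 1) then 1 else 0 := fun i => rfl
  have hwb : ∀ i, w i ≤ w (i + 1) ∧ w (i + 1) ≤ w i + 1 := by
    intro i
    rw [hws]
    split_ifs <;> omega
  have hwle : ∀ i, w i ≤ i := by
    intro i
    induction i with
    | zero => omega
    | succ i ih => have := hwb i; omega
  -- the equivalence of the conditions
  have hequiv : ∀ φ : V → ℕ, Val R ω φ ↔ StrictMono fun i : Fin (D + 1) => φ (e.symm i) + w i := by
    intro φ
    have hRs : ∀ i j : Fin (D + 1), i < j → R (e.symm i) (e.symm j) := by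
      intro i j hij
      apply hrR
      rw [← hev, ← hev, Equiv.apply_symm_apply, Equiv.apply_symm_apply]
      exact hij
    constructor
    · intro h
      rw [Fin.strictMono_iff_lt_succ]
      intro i
      have h1 := h _ _ (hRs i.castSucc i.succ Fin.castSucc_lt_succ)
      have h2 := hws i
      have e1 : ω' i = ω (e.symm i.castSucc) := by
        simp only [hω']
        rw [dif_pos (by have := i.2; omega)]
        rfl
      have e2 : ω' (i + 1) = ω (e.symm i.succ) := by
        simp only [hω']
        rw [dif_pos (by have := i.2; omega)]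
        rfl
      rw [e1, e2] at h2
      have h3 : ω (e.symm i.castSucc) ≠ ω (e.symm i.succ) := by
        intro h4
        have h5 := e.symm.injective (hω h4)
        exact absurd h5 Fin.castSucc_lt_succ.ne
      simp only [Fin.val_castSucc, Fin.val_succ]
      rw [h2]
      split_ifs with h4
      · omega
      · have := h1.2 (by omega)
        omega
    · intro h
      set c : ℕ → ℕ := fun i => if h : i < D + 1 then φ (e.symm ⟨i, h⟩) else 0 with hc
      have hcons : ∀ i, i + 1 < D + 1 → c i ≤ c (i + 1) ∧ (ω' (i + 1) < ω' i → c i < c (i + 1)) := by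
        intro i hi
        have h1 : φ (e.symm ⟨i, by omega⟩) + w i < φ (e.symm ⟨i + 1, hi⟩) + w (i + 1) :=
          h (show (⟨i, by omega⟩ : Fin (D + 1)) < ⟨i + 1, hi⟩ by rw [Fin.mk_lt_mk]; omega)
        rw [hws] at h1
        simp only [hc]
        rw [dif_pos (show i < D + 1 by omega), dif_pos hi]
        constructor
        · split_ifs at h1 <;> omega
        · intro h2
          rw [if_neg (by omega)] at h1
          omega
      have hall : ∀ i j, i ≤ j → j < D + 1 → c i ≤ c j ∧ (ω' j < ω' i → c i < c j) := by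
        intro i j hij
        induction j, hij using Nat.le_induction with
        | base => intro _; exact ⟨le_rfl, fun h => absurd h (lt_irrefl _)⟩
        | succ j hij ih =>
          intro hj
          have h1 := ih (by omega)
          have h2 := hcons j hj
          refine ⟨by omega, fun h3 => ?_⟩
          by_cases h4 : ω' j < ω' i
          · have := h1.2 h4
            omega
          · have := h2.2 (by omega)
            omega
      intro u v huv
      have h1 := hrlt u v huv
      have h2 := hall (r u) (r v) h1.le (hrb v)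
      have ec : ∀ x, c (r x) = φ x := by
        intro x
        simp only [hc]
        rw [dif_pos (hrb x)]
        have : (⟨r x, hrb x⟩ : Fin (D + 1)) = e x := rfl
        rw [this, Equiv.symm_apply_apply]
      have ew : ∀ x, ω' (r x) = ω x := by
        intro x
        simp only [hω']
        rw [dif_pos (hrb x)]
        have : (⟨r x, hrb x⟩ : Fin (D + 1)) = e x := rfl
        rw [this, Equiv.symm_apply_apply]
      rw [ec, ec, ew, ew] at h2
      exact h2
  have hcnt : cnt (Val R ω) = fun n => ((n + w D).choose (D + 1) : ℤ) := by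
    funext n
    rw [← chain_count D n w hw0 hwb]
    unfold cnt
    rw [← Fintype.card_subtype]
    congr 1
    refine Fintype.card_congr
      { toFun := fun φ => ⟨fun i => φ.1 (e.symm i), (hequiv _).mp φ.2⟩
        invFun := fun c => ⟨fun v => c.1 (e v), ?_⟩
        left_inv := ?_
        right_inv := ?_ }
    · rw [hequiv]
      have := c.2
      simp only [Equiv.apply_symm_apply]
      exact this
    · intro φ
      apply Subtype.ext
      funext v
      simp
    · intro c
      apply Subtype.ext
      funext i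
      simp
  rw [hcnt, hD]
  exact good_choose (D + 1) (w D) ((hwle D).trans (by omega))

lemma good_val {V : Type*} [Fintype V] [Nonempty V] (ω : V → ℕ) (hω : Function.Injective ω) :
    ∀ (m : ℕ) (R : V → V → Prop), SPO R → (inc R).card ≤ m →
      Good (Fintype.card V) (cnt (Val R ω)) := by
  intro m
  induction m with
  | zero =>
    intro R hR hm
    apply good_total R hR _ ω hω
    intro u v huv
    by_contra hcon
    push Not at hcon
    have : (u, v) ∈ inc R := by simp [inc, huv, hcon.1, hcon.2]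
    have h2 := Finset.card_pos.mpr ⟨_, this⟩
    omega
  | succ m ih =>
    intro R hR hm
    by_cases htot : ∀ u v, u ≠ v → R u v ∨ R v u
    · exact good_total R hR htot ω hω
    push Not at htot
    have : ∃ a b, ω a < ω b ∧ ¬ R a b ∧ ¬ R b a := by
      obtain ⟨u, v, huv, h1, h2⟩ := htot
      rcases lt_or_gt_of_ne (fun h => huv (hω h)) with h | h
      · exact ⟨u, v, h, h1, h2⟩
      · exact ⟨v, u, h, h2, h1⟩
    obtain ⟨a, b, hab, h1, h2⟩ := this
    have hne : a ≠ b := by rintro rfl; exact lt_irrefl _ hab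
    have e1 := ih (ext R a b) (hR.ext hne h2) (by have := inc_lt hne h1 h2; omega)
    have e2 := ih (ext R b a) (hR.ext hne.symm h1) (by have := inc_lt hne.symm h2 h1; omega)
    have e3 := e1.add e2
    have e4 : cnt (Val R ω) = fun n => cnt (Val (ext R a b) ω) n + cnt (Val (ext R b a) ω) n := by
      funext n
      rw [cnt_split (Val R ω) (fun φ => φ a ≤ φ b) n, cnt_congr (val_ext R ω hab),
        cnt_congr (val_ext' R ω hab)]
    rw [e4]
    exact e3

/-! ### Colourings -/

/-- `φ` is strictly increasing along `R` and different on the pairs of `A`. -/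
def PG {V : Type*} (R A : V → V → Prop) (φ : V → ℕ) : Prop :=
  (∀ u v, R u v → φ u < φ v) ∧ ∀ u v, A u v → φ u ≠ φ v

lemma pg_ext {V : Type*} {R A : V → V → Prop} {a b : V} (φ : V → ℕ) :
    (PG R A φ ∧ φ a < φ b) ↔ PG (ext R a b) A φ := by
  constructor
  · rintro ⟨⟨h, h'⟩, h1⟩
    refine ⟨?_, h'⟩
    rintro u v (h2 | ⟨h2, h3⟩)
    · exact h u v h2
    · have e1 : φ u ≤ φ a := by
        rcases h2 with rfl | h2
        · exact le_rfl
        · exact (h _ _ h2).le
      have e2 : φ b ≤ φ v := by
        rcases h3 with rfl | h3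
        · exact le_rfl
        · exact (h _ _ h3).le
      omega
  · rintro ⟨h, h'⟩
    exact ⟨⟨fun u v h1 => h u v (Or.inl h1), h'⟩, h a b (Or.inr ⟨Or.inl rfl, Or.inl rfl⟩)⟩

lemma pg_ext' {V : Type*} {R A : V → V → Prop} {a b : V} (hA : A a b) (φ : V → ℕ) :
    (PG R A φ ∧ ¬ φ a < φ b) ↔ PG (ext R b a) A φ := by
  rw [← pg_ext]
  constructor
  · rintro ⟨h, h1⟩
    have := h.2 a b hA
    exact ⟨h, by omega⟩
  · rintro ⟨h, h1⟩
    exact ⟨h, by omega⟩

lemma exists_label {V : Type*} [Fintype V] (R : V → V → Prop) (hR : SPO R) :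
    ∃ ω : V → ℕ, Function.Injective ω ∧ ∀ u v, R u v → ω v < ω u := by
  set D := Fintype.card V with hD
  set e0 := Fintype.equivFin V
  set r : V → ℕ := fun v => (univ.filter fun u => R v u).card with hr
  have hrlt : ∀ u v, R u v → r v < r u := by
    intro u v huv
    apply Finset.card_lt_card
    rw [Finset.ssubset_iff_of_subset]
    · exact ⟨v, by simp [huv], by simp [hR.irr]⟩
    · intro x hx
      simp only [mem_filter, mem_univ, true_and] at hx ⊢
      exact hR.tr _ _ _ huv hx
  refine ⟨fun v => r v * D + e0 v, ?_, ?_⟩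
  · intro u v huv
    have h1 : (r u * D + e0 u) % D = (r v * D + e0 v) % D := by
      simp only at huv
      rw [huv]
    rw [Nat.mul_comm (r u), Nat.mul_comm (r v), Nat.mul_add_mod, Nat.mul_add_mod,
      Nat.mod_eq_of_lt (e0 u).2, Nat.mod_eq_of_lt (e0 v).2] at h1
    exact e0.injective (Fin.ext h1)
  · intro u v huv
    have h1 := hrlt u v huv
    have h2 : (e0 v : ℕ) < D := (e0 v).2
    have h3 : (r v + 1) * D ≤ r u * D := Nat.mul_le_mul_right _ h1
    simp only
    rw [Nat.add_mul, Nat.one_mul] at h3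
    omega

lemma cnt_false {V : Type*} [Fintype V] {P : (V → ℕ) → Prop} (h : ∀ φ, ¬ P φ) :
    cnt P = fun _ => 0 := by
  funext n
  unfold cnt
  rw [Finset.filter_false_of_mem fun φ _ => h _]
  simp

lemma good_pg {V : Type*} [Fintype V] [Nonempty V] (A : V → V → Prop) :
    ∀ (m : ℕ) (R : V → V → Prop), SPO R → (inc R).card ≤ m →
      Good (Fintype.card V) (cnt (PG R A)) := by
  intro m
  induction m with
  | zero =>
    intro R hR hm
    by_cases hloop : ∃ u, A u u
    · obtain ⟨u, hu⟩ := hloop
      rw [cnt_false fun φ h => h.2 u u hu rfl]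
      exact good_zero _
    push Not at hloop
    obtain ⟨ω, hω, hωR⟩ := exists_label R hR
    have h1 : ∀ φ, PG R A φ ↔ Val R ω φ := by
      intro φ
      constructor
      · rintro ⟨h, _⟩ u v huv
        exact ⟨(h u v huv).le, fun _ => h u v huv⟩
      · intro h
        have h2 : ∀ u v, R u v → φ u < φ v := fun u v huv => (h u v huv).2 (hωR u v huv)
        refine ⟨h2, fun u v huv => ?_⟩
        have hne : u ≠ v := by rintro rfl; exact hloop u huv
        by_contra heq
        have h3 : (u, v) ∈ inc R := by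
          simp only [inc, mem_filter, mem_univ, true_and]
          exact ⟨hne, fun h4 => by have := h2 _ _ h4; omega,
            fun h4 => by have := h2 _ _ h4; omega⟩
        have h4 := Finset.card_pos.mpr ⟨_, h3⟩
        omega
    rw [cnt_congr h1]
    exact good_val ω hω 0 R hR hm
  | succ m ih =>
    intro R hR hm
    by_cases hloop : ∃ u, A u u
    · obtain ⟨u, hu⟩ := hloop
      rw [cnt_false fun φ h => h.2 u u hu rfl]
      exact good_zero _
    push Not at hloop
    by_cases hex : ∃ a b, A a b ∧ ¬ R a b ∧ ¬ R b a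
    · obtain ⟨a, b, hab, h1, h2⟩ := hex
      have hne : a ≠ b := by rintro rfl; exact hloop a hab
      have e1 := ih (ext R a b) (hR.ext hne h2) (by have := inc_lt hne h1 h2; omega)
      have e2 := ih (ext R b a) (hR.ext hne.symm h1) (by have := inc_lt hne.symm h2 h1; omega)
      have e4 : cnt (PG R A) =
          fun n => cnt (PG (ext R a b) A) n + cnt (PG (ext R b a) A) n := by
        funext n
        rw [cnt_split (PG R A) (fun φ => φ a < φ b) n, cnt_congr pg_ext,
          cnt_congr (pg_ext' hab)]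
      rw [e4]
      exact e1.add e2
    · push Not at hex
      obtain ⟨ω, hω, hωR⟩ := exists_label R hR
      have h1 : ∀ φ, PG R A φ ↔ Val R ω φ := by
        intro φ
        constructor
        · rintro ⟨h, _⟩ u v huv
          exact ⟨(h u v huv).le, fun _ => h u v huv⟩
        · intro h
          have h2 : ∀ u v, R u v → φ u < φ v := fun u v huv => (h u v huv).2 (hωR u v huv)
          refine ⟨h2, fun u v huv => ?_⟩
          by_cases h3 : R u v
          · exact (h2 _ _ h3).ne
          · exact (h2 _ _ (hex u v huv h3)).ne'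
      rw [cnt_congr h1]
      exact good_val ω hω (m + 1) R hR hm

/-- Functions which are different on the pairs of a relation have nonnegative `h`-vector. -/
lemma good_rel {V : Type*} [Fintype V] [Nonempty V] (A : V → V → Prop) :
    Good (Fintype.card V) (cnt fun φ => ∀ u v, A u v → φ u ≠ φ v) := by
  have h1 : ∀ φ : V → ℕ, (∀ u v, A u v → φ u ≠ φ v) ↔ PG (fun _ _ => False) A φ :=
    fun φ => ⟨fun h => ⟨fun _ _ h => h.elim, h⟩, fun h => h.2⟩
  rw [cnt_congr h1]
  exact good_pg A _ _ ⟨fun _ h => h, fun _ _ _ h _ => h⟩ le_rfl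

/-! ### The empty graph -/

lemma coeff_one_sub_pow (m j : ℕ) :
    coeff j ((1 - X : PowerSeries ℤ) ^ m) = (-1) ^ j * (m.choose j : ℤ) := by
  induction m generalizing j with
  | zero =>
    rw [pow_zero, coeff_one]
    cases j with
    | zero => simp
    | succ j => simp
  | succ m ih =>
    rw [pow_succ, mul_sub, mul_one, map_sub, ih]
    cases j with
    | zero => simp
    | succ j =>
      rw [coeff_succ_mul_X, ih, Nat.choose_succ_succ]
      push_cast
      ring

lemma hc_eq (d : ℕ) (N : ℕ → ℤ) (k : ℕ) :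
    hc d N k = ∑ j ∈ range (k + 1), (-1) ^ j * ((d + 1).choose j : ℤ) * N (k - j) := by
  unfold hc
  rw [coeff_mul, Finset.Nat.sum_antidiagonal_eq_sum_range_succ
    (fun i j => coeff i ((1 - X : PowerSeries ℤ) ^ (d + 1)) * coeff j (PowerSeries.mk N))]
  refine Finset.sum_congr rfl fun j _ => ?_
  rw [coeff_one_sub_pow, coeff_mk]

lemma hc_succ (d : ℕ) (N : ℕ → ℤ) (k : ℕ) :
    hc (d + 1) N (k + 1) = hc d N (k + 1) - hc d N k := by
  unfold hc
  rw [pow_succ (1 - X : PowerSeries ℤ) (d + 1), mul_assoc, mul_comm (1 - X : PowerSeries ℤ),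
    ← mul_assoc, mul_sub, mul_one, map_sub, coeff_succ_mul_X]

lemma hc_succ_zero (d : ℕ) (N : ℕ → ℤ) : hc (d + 1) N 0 = hc d N 0 := by
  rw [hc_eq, hc_eq]
  simp

lemma alt_sum (d : ℕ) (x : ℤ) :
    ∑ j ∈ range (d + 2), (-1) ^ j * ((d + 1).choose j : ℤ) * (x - j) ^ d = 0 := by
  have h1 := fwdDiff_iter_pow_eq_zero_of_lt (R := ℤ) (show d < d + 1 by omega)
  have h2 := congrFun h1 (-x)
  rw [fwdDiff_iter_eq_sum_shift] at h2
  simp only [Pi.zero_apply, smul_eq_mul, nsmul_eq_mul, mul_one] at h2
  have h3 : ∑ j ∈ range (d + 2), (-1) ^ j * ((d + 1).choose j : ℤ) * (x - j) ^ d =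
      -(∑ k ∈ range (d + 1 + 1), (-1) ^ (d + 1 - k) * ((d + 1).choose k : ℤ) * (-x + k) ^ d) := by
    rw [← Finset.sum_neg_distrib]
    refine Finset.sum_congr rfl fun j hj => ?_
    have hj' : j ≤ d + 1 := by
      have := Finset.mem_range.mp hj
      omega
    have e1 : (x - j) ^ d = (-1) ^ d * (-x + j) ^ d := by
      rw [← mul_pow]
      congr 1
      ring
    have e2 : ((-1 : ℤ)) ^ (d + 1 - j) * (-1) ^ j = (-1) ^ (d + 1) := by
      rw [← pow_add]
      congr 1
      omega
    have e3 : ((-1 : ℤ)) ^ j * (-1) ^ j = 1 := by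
      rw [← mul_pow]
      simp
    have e4 : ((-1 : ℤ)) ^ (d + 1 - j) = (-1) ^ (d + 1) * (-1) ^ j := by
      rw [← e2, mul_assoc, e3, mul_one]
    rw [e1, e4, pow_succ]
    ring
  rw [h3]
  rw [neg_eq_zero]
  exact h2

/-- The Eulerian numbers are palindromic. -/
lemma hc_pow_palin (d k : ℕ) (hk1 : 1 ≤ k) (hk2 : k ≤ d) :
    hc d (fun n => (n : ℤ) ^ d) k = hc d (fun n => (n : ℤ) ^ d) (d + 1 - k) := by
  set g : ℕ → ℕ → ℤ := fun k j => (-1) ^ j * ((d + 1).choose j : ℤ) * ((k : ℤ) - j) ^ d with hg
  have e1 : ∀ k, hc d (fun n => (n : ℤ) ^ d) k = ∑ j ∈ range (k + 1), g k j := by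
    intro k
    rw [hc_eq]
    refine Finset.sum_congr rfl fun j hj => ?_
    have hj' : j ≤ k := by
      have := Finset.mem_range.mp hj
      omega
    simp only [hg]
    push_cast [hj']
    ring
  have e2 : ∑ j ∈ range (d + 2), g k j = 0 := alt_sum d k
  have e3 : ∑ j ∈ range (d + 2), g k j =
      ∑ j ∈ range (k + 1), g k j + ∑ j ∈ Finset.Ico (k + 1) (d + 2), g k j :=
    (Finset.sum_range_add_sum_Ico _ (by omega)).symm
  have e4 : ∑ j ∈ Finset.Ico (k + 1) (d + 2), g k j = ∑ i ∈ range (d + 1 - k), g k (d + 1 - i) := by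
    refine Finset.sum_nbij' (fun j => d + 1 - j) (fun i => d + 1 - i) ?_ ?_ ?_ ?_ ?_
    · intro j hj
      simp only [Finset.mem_Ico, Finset.mem_range] at hj ⊢
      omega
    · intro i hi
      simp only [Finset.mem_Ico, Finset.mem_range] at hi ⊢
      omega
    · intro j hj
      simp only [Finset.mem_Ico] at hj
      omega
    · intro i hi
      simp only [Finset.mem_range] at hi
      omega
    · intro j hj
      simp only [Finset.mem_Ico] at hj
      congr 1
      omega
  have e5 : ∀ i ∈ range (d + 1 - k), g k (d + 1 - i) = -g (d + 1 - k) i := by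
    intro i hi
    have hi' := Finset.mem_range.mp hi
    simp only [hg]
    rw [Nat.choose_symm (by omega)]
    have a1 : ((k : ℤ) - ((d + 1 - i : ℕ) : ℤ)) = -(((d + 1 - k : ℕ) : ℤ) - i) := by
      push_cast [show i ≤ d + 1 by omega, show k ≤ d + 1 by omega]
      ring
    have e2 : ((-1 : ℤ)) ^ (d + 1 - i) * (-1) ^ i = (-1) ^ (d + 1) := by
      rw [← pow_add]
      congr 1
      omega
    have e3 : ((-1 : ℤ)) ^ i * (-1) ^ i = 1 := by
      rw [← mul_pow]
      simp
    have e4 : ((-1 : ℤ)) ^ (d + 1 - i) = (-1) ^ (d + 1) * (-1) ^ i := by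
      rw [← e2, mul_assoc, e3, mul_one]
    have e6 : ((-1 : ℤ)) ^ d * (-1) ^ d = 1 := by
      rw [← mul_pow]
      simp
    rw [a1, e4, neg_pow (((d + 1 - k : ℕ) : ℤ) - i), pow_succ]
    linear_combination (-((-1) ^ i * ((d + 1).choose i : ℤ) *
      (((d + 1 - k : ℕ) : ℤ) - i) ^ d)) * e6
  rw [e1, e1, Finset.sum_range_succ (fun j => g (d + 1 - k) j)]
  have e7 : g (d + 1 - k) (d + 1 - k) = 0 := by
    simp only [hg, sub_self]
    rw [zero_pow (by omega), mul_zero]
  rw [e7, add_zero]
  rw [e3, e4, Finset.sum_congr rfl e5, Finset.sum_neg_distrib] at e2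
  linarith

/-! ### Sums of coefficients -/

/-- The differences `(h_d + ⋯ + h_{d-i+1}) - (h_0 + ⋯ + h_i)`. -/
def q (d : ℕ) (N : ℕ → ℤ) (i : ℕ) : ℤ :=
  ∑ j ∈ range i, hc d N (d - j) - ∑ j ∈ range (i + 1), hc d N j

lemma q_pow (d : ℕ) (hd : 1 ≤ d) (i : ℕ) (hi : i ≤ d) : q d (fun n => (n : ℤ) ^ d) i = 0 := by
  induction i with
  | zero =>
    unfold q
    rw [Finset.sum_range_zero, Finset.sum_range_one, hc_eq]
    simp [show d ≠ 0 by omega]
  | succ i ih =>
    have h1 := ih (by omega)
    unfold q at h1 ⊢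
    rw [Finset.sum_range_succ, Finset.sum_range_succ _ (i + 1),
      hc_pow_palin d (i + 1) (by omega) hi, show d + 1 - (i + 1) = d - i by omega]
    linarith

lemma q_contract (D : ℕ) (N : ℕ → ℤ) (i : ℕ) (hi : i ≤ D + 1) :
    q (D + 1) N i = hc D N (D + 1) - hc D N (D + 1 - i) - hc D N i := by
  induction i with
  | zero =>
    unfold q
    rw [Finset.sum_range_zero, Finset.sum_range_one, hc_succ_zero, Nat.sub_zero]
    ring
  | succ i ih =>
    have h1 := ih (by omega)
    unfold q at h1 ⊢
    rw [Finset.sum_range_succ, Finset.sum_range_succ _ (i + 1), hc_succ D N i]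
    have h2 : hc (D + 1) N (D + 1 - i) = hc D N (D + 1 - i) - hc D N (D - i) := by
      have := hc_succ D N (D - i)
      rwa [show D - i + 1 = D + 1 - i by omega] at this
    rw [h2, show D + 1 - (i + 1) = D - i by omega]
    linarith

lemma q_sub (d : ℕ) (N M : ℕ → ℤ) (i : ℕ) :
    q d (fun n => N n - M n) i = q d N i - q d M i := by
  unfold q
  simp only [hc_sub, Finset.sum_sub_distrib]
  ring

/-- Contraction of a pair. -/
lemma cnt_contract {V : Type*} [Fintype V] (E : Finset (V × V)) (u v : V) (huv : u ≠ v) :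
    ∃ A : {x : V // x ≠ v} → {x : V // x ≠ v} → Prop,
      cnt (fun φ : V → ℕ => (∀ p ∈ E, φ p.1 ≠ φ p.2) ∧ φ u = φ v) =
        cnt fun ψ : {x : V // x ≠ v} → ℕ => ∀ x y, A x y → ψ x ≠ ψ y := by
  set π : V → {x : V // x ≠ v} := fun x => if h : x ≠ v then ⟨x, h⟩ else ⟨u, huv⟩ with hπ
  have hπ1 : ∀ x : {x : V // x ≠ v}, π x.1 = x := by
    intro x
    simp only [hπ]
    rw [dif_pos x.2]
  have hπv : π v = ⟨u, huv⟩ := by
    simp only [hπ]
    rw [dif_neg (by simp)]
  have hπu : π u = ⟨u, huv⟩ := by
    simp only [hπ]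
    rw [dif_pos huv]
  have hval : ∀ {α : Type} (φ : V → α), φ u = φ v → ∀ x, φ (π x).1 = φ x := by
    intro α φ h x
    by_cases hx : x = v
    · rw [hx, hπv]
      exact h
    · have : π x = ⟨x, hx⟩ := by
        simp only [hπ]
        rw [dif_pos hx]
      rw [this]
  refine ⟨fun x y => ∃ p ∈ E, π p.1 = x ∧ π p.2 = y, ?_⟩
  funext n
  unfold cnt
  congr 1
  refine Finset.card_bij' (fun φ _ => fun x => φ x.1) (fun ψ _ => fun x => ψ (π x)) ?_ ?_ ?_ ?_
  · intro φ hφ
    simp only [mem_filter, mem_univ, true_and] at hφ ⊢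
    rintro x y ⟨p, hp, rfl, rfl⟩
    have hφ2 : φ u = φ v := Fin.ext hφ.2
    rw [hval φ hφ2, hval φ hφ2]
    exact hφ.1 p hp
  · intro ψ hψ
    simp only [mem_filter, mem_univ, true_and] at hψ ⊢
    refine ⟨fun p hp => hψ _ _ ⟨p, hp, rfl, rfl⟩, ?_⟩
    rw [hπu, hπv]
  · intro φ hφ
    simp only [mem_filter, mem_univ, true_and] at hφ
    funext x
    exact hval φ (Fin.ext hφ.2) x
  · intro ψ _
    funext x
    simp only
    rw [hπ1]

lemma q_nonneg {V : Type*} [Fintype V] [Nonempty V] (E : Finset (V × V)) (i : ℕ)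
    (hi : i ≤ Fintype.card V) :
    0 ≤ q (Fintype.card V) (cnt fun φ : V → ℕ => ∀ p ∈ E, φ p.1 ≠ φ p.2) i := by
  induction E using Finset.induction_on with
  | empty =>
    have h1 : (cnt fun φ : V → ℕ => ∀ p ∈ (∅ : Finset (V × V)), φ p.1 ≠ φ p.2) =
        fun n : ℕ => (n : ℤ) ^ Fintype.card V := by
      funext n
      unfold cnt
      have h0 : (univ.filter fun φ : V → Fin n => ∀ p ∈ (∅ : Finset (V × V)),
          ((φ p.1 : ℕ)) ≠ (φ p.2 : ℕ)) = univ := by
        ext φ
        simp
      have h2 : ((univ : Finset (V → Fin n)).card : ℤ) = (n : ℤ) ^ Fintype.card V := by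
        simp
      rw [← h2]
      congr 2
      ext φ
      simp
    rw [h1, q_pow _ Fintype.card_pos i hi]
  | insert p E _ ih =>
    by_cases hp : p.1 = p.2
    · rw [cnt_false fun φ h => h p (Finset.mem_insert_self _ _) (by rw [hp])]
      unfold q
      simp [hc_zero]
    obtain ⟨A, hA⟩ := cnt_contract E p.1 p.2 hp
    have h1 : (cnt fun φ : V → ℕ => ∀ e ∈ insert p E, φ e.1 ≠ φ e.2) =
        fun n => (cnt (fun φ : V → ℕ => ∀ e ∈ E, φ e.1 ≠ φ e.2)) n -
          (cnt fun ψ : {x : V // x ≠ p.2} → ℕ => ∀ x y, A x y → ψ x ≠ ψ y) n := by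
      funext n
      rw [← hA, cnt_split (fun φ : V → ℕ => ∀ e ∈ E, φ e.1 ≠ φ e.2) (fun φ => φ p.1 = φ p.2) n]
      rw [add_sub_cancel_left]
      congr 2
      funext φ
      apply propext
      simp only [Finset.forall_mem_insert]
      exact and_comm
    obtain ⟨D, hD⟩ : ∃ D, Fintype.card V = D + 1 :=
      ⟨Fintype.card V - 1, by have := Fintype.card_pos (α := V); omega⟩
    have hD' : Fintype.card {x : V // x ≠ p.2} = D := by
      have := Fintype.card_subtype_compl (fun x : V => x = p.2)
      rw [Fintype.card_subtype_eq, hD] at this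
      simpa using this
    have : Nonempty {x : V // x ≠ p.2} := ⟨⟨p.1, hp⟩⟩
    have hgood := good_rel A
    rw [hD'] at hgood
    rw [h1, q_sub]
    rw [hD] at ih hi ⊢
    have h4 := q_contract D (cnt fun ψ : {x : V // x ≠ p.2} → ℕ => ∀ x y, A x y → ψ x ≠ ψ y) i hi
    rw [(hgood (D + 1)).2 (by omega)] at h4
    have h2 := (hgood (D + 1 - i)).1
    have h3 := (hgood i).1
    linarith

/-- The number of proper colourings of `G` with `n` colours. -/
def chi {V : Type*} (G : SimpleGraph V) (n : ℕ) : ℕ :=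
  Nat.card {φ : V → Fin n // ∀ u v, G.Adj u v → φ u ≠ φ v}

lemma chi_eq {V : Type*} [Fintype V] (G : SimpleGraph V) :
    (fun n => (chi G n : ℤ)) =
      cnt fun φ : V → ℕ => ∀ p ∈ (univ.filter fun p : V × V => G.Adj p.1 p.2), φ p.1 ≠ φ p.2 := by
  funext n
  unfold chi cnt
  rw [Nat.card_eq_fintype_card, Fintype.card_subtype]
  congr 2
  ext φ
  simp only [mem_filter, mem_univ, true_and, Prod.forall]
  constructor
  · intro h u v huv h1
    exact h u v huv (Fin.ext h1)
  · intro h u v huv h1
    exact h u v huv (by rw [h1])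

lemma chi_good {V : Type*} [Fintype V] [Nonempty V] (G : SimpleGraph V) :
    Good (Fintype.card V) fun n => (chi G n : ℤ) := by
  rw [chi_eq]
  have := good_rel (V := V) (fun u v => G.Adj u v)
  have h1 : (cnt fun φ : V → ℕ => ∀ p ∈ (univ.filter fun p : V × V => G.Adj p.1 p.2),
      φ p.1 ≠ φ p.2) = cnt fun φ : V → ℕ => ∀ u v, G.Adj u v → φ u ≠ φ v := by
    apply cnt_congr
    intro φ
    simp
  rw [h1]
  exact this

/-- **Theorem.** Let `G` be a graph with `d ≥ 1` vertices and `h` its chromatic `h`-polynomial,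
`∑ χ_G(n) z^n = h(z) / (1 - z)^(d + 1)`. Then
`h_d + ⋯ + h_{d-i+1} ≥ h_0 + ⋯ + h_i` for all `0 ≤ i ≤ d`. Moreover `h = a + z b` where `a`, `b`
are palindromic with respect to the degrees `d` and `d - 1` and `-a`, `b` have nonnegative
coefficients. -/
theorem result {V : Type*} [Fintype V] [Nonempty V] (G : SimpleGraph V) :
    ∃ h : Polynomial ℤ,
      (h : PowerSeries ℤ) = (1 - X) ^ (Fintype.card V + 1) *
        PowerSeries.mk (fun n => (chi G n : ℤ)) ∧
      h.natDegree ≤ Fintype.card V ∧
      (∀ i, i ≤ Fintype.card V →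
        ∑ j ∈ range (i + 1), h.coeff j ≤ ∑ j ∈ range i, h.coeff (Fintype.card V - j)) ∧
      ∃ a b : Polynomial ℤ, h = a + Polynomial.X * b ∧
        a.natDegree ≤ Fintype.card V ∧ b.natDegree ≤ Fintype.card V - 1 ∧
        (∀ i, i ≤ Fintype.card V → a.coeff i = a.coeff (Fintype.card V - i)) ∧
        (∀ i, i ≤ Fintype.card V - 1 → b.coeff i = b.coeff (Fintype.card V - 1 - i)) ∧
        (∀ i, a.coeff i ≤ 0) ∧ ∀ i, 0 ≤ b.coeff i := by
  set d := Fintype.card V with hd
  have hd1 : 1 ≤ d := Fintype.card_pos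
  set N : ℕ → ℤ := fun n => (chi G n : ℤ) with hN
  have hgood : Good d N := chi_good G
  have hq : ∀ i, i ≤ d → 0 ≤ q d N i := by
    intro i hi
    rw [hN, chi_eq]
    exact q_nonneg _ i hi
  set h : Polynomial ℤ := PowerSeries.trunc (d + 1) ((1 - X : PowerSeries ℤ) ^ (d + 1) *
    PowerSeries.mk N) with hh
  have hcoef : ∀ k, h.coeff k = hc d N k := by
    intro k
    rw [hh, PowerSeries.coeff_trunc]
    split_ifs with hk
    · rfl
    · exact ((hgood k).2 (by omega)).symm
  have hq0 : ∀ i, i ≤ d → q d N i = q d N (d - i) := by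
    -- the sequence `g_j = h_{d+1-j} - h_j` is antisymmetric
    have key : ∀ i, i ≤ d → q d N i + ∑ j ∈ range (i + 1), hc d N j =
        ∑ j ∈ Finset.Ico (d + 1 - i) (d + 1), hc d N j := by
      intro i hi
      unfold q
      rw [sub_add_cancel]
      refine Finset.sum_nbij' (fun j => d - j) (fun j => d - j) ?_ ?_ ?_ ?_ ?_
      · intro j hj
        simp only [Finset.mem_Ico, Finset.mem_range] at hj ⊢
        omega
      · intro j hj
        simp only [Finset.mem_Ico, Finset.mem_range] at hj ⊢
        omega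
      · intro j hj
        simp only [Finset.mem_range] at hj
        omega
      · intro j hj
        simp only [Finset.mem_Ico] at hj
        omega
      · intro j _
        rfl
    intro i hi
    have h1 := key i hi
    have h2 := key (d - i) (by omega)
    have h3 := Finset.sum_range_add_sum_Ico (fun j => hc d N j) (show d + 1 - i ≤ d + 1 by omega)
    have h4 := Finset.sum_range_add_sum_Ico (fun j => hc d N j)
      (show d + 1 - (d - i) ≤ d + 1 by omega)
    rw [show d + 1 - (d - i) = i + 1 by omega] at h2 h4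
    rw [show d + 1 - i = d - i + 1 by omega] at h1 h3
    linarith
  set a : Polynomial ℤ := ∑ i ∈ range (d + 1), Polynomial.monomial i (-q d N i) with ha
  set b : Polynomial ℤ := ∑ i ∈ range d, Polynomial.monomial i (hc d N (d - i) + q d N i) with hb
  have hac : ∀ k, a.coeff k = if k < d + 1 then -q d N k else 0 := by
    intro k
    rw [ha, Polynomial.finsetSum_coeff]
    simp only [Polynomial.coeff_monomial]
    rw [Finset.sum_ite_eq' (range (d + 1)) k]
    simp only [Finset.mem_range]
  have hbc : ∀ k, b.coeff k = if k < d then hc d N (d - k) + q d N k else 0 := by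
    intro k
    rw [hb, Polynomial.finsetSum_coeff]
    simp only [Polynomial.coeff_monomial]
    rw [Finset.sum_ite_eq' (range d) k]
    simp
  have hqs : ∀ i, q d N (i + 1) = q d N i + hc d N (d - i) - hc d N (i + 1) := by
    intro i
    unfold q
    rw [Finset.sum_range_succ, Finset.sum_range_succ _ (i + 1)]
    ring
  have hq00 : q d N 0 = -hc d N 0 := by
    unfold q
    simp
  refine ⟨h, ?_, ?_, ?_, a, b, ?_, ?_, ?_, ?_, ?_, ?_, ?_⟩
  · ext k
    rw [Polynomial.coeff_coe, hcoef]
    rfl
  · rw [Polynomial.natDegree_le_iff_coeff_eq_zero]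
    intro k hk
    rw [hcoef]
    exact (hgood k).2 hk
  · intro i hi
    have := hq i hi
    unfold q at this
    simp only [hcoef]
    linarith
  · ext k
    rw [Polynomial.coeff_add, hcoef, hac]
    cases k with
    | zero =>
      rw [Polynomial.coeff_X_mul_zero, if_pos (by omega), hq00]
      ring
    | succ k =>
      rw [Polynomial.coeff_X_mul, hbc]
      by_cases hk : k < d
      · rw [if_pos (by omega), if_pos hk, hqs]
        ring
      · rw [if_neg (by omega), if_neg hk, (hgood (k + 1)).2 (by omega)]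
        ring
  · rw [Polynomial.natDegree_le_iff_coeff_eq_zero]
    intro k hk
    rw [hac, if_neg (by omega)]
  · rw [Polynomial.natDegree_le_iff_coeff_eq_zero]
    intro k hk
    rw [hbc, if_neg (by omega)]
  · intro i hi
    rw [hac, hac, if_pos (by omega), if_pos (by omega), hq0 i hi]
  · intro i hi
    rw [hbc, hbc, if_pos (by omega), if_pos (by omega), hq0 (d - 1 - i) (by omega),
      show d - (d - 1 - i) = i + 1 by omega, hqs]
    ring
  · intro i
    rw [hac]
    split_ifs with h1
    · have := hq i (by omega)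
      linarith
    · exact le_rfl
  · intro i
    rw [hbc]
    split_ifs with h1
    · have := hq i (by omega)
      have := (hgood (d - i)).1
      linarith
    · exact le_rfl

end

end Pool.Agent.Results.MP_f4be1e_co.ChromaticH
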