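import Mathlib
import Pool.Agent.R135.ChromSym

/-!
# MP_f4be1e_co, Q1: the partial-sum inequalities for the chromatic `h`-polynomial hold

For every finite simple graph `G` on `d ≥ 1` vertices, with
`∑ χ_G(n) zⁿ = h_G(z) / (1-z)^{d+1}`, one has
`h_d + ⋯ + h_{d-i+1} - (h_0 + ⋯ + h_i) ≥ 0` for all `0 ≤ i ≤ d`, in particular for
`1 ≤ i ≤ ⌊d/2⌋`.

Proof: deletion-contraction `h_G = h_{G-e} - (1-z) h_{G/e}`, nonnegativity of `h_{G/e}`, and
palindromicity of the Eulerian polynomials (edgeless graph).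
-/

open Finset Polynomial

namespace Pool.Agent.Results.MP_f4be1e_co.PartialSumInequality

universe u

/-- `χ_G(n)`: the number of maps `V → {1, ..., n}` taking distinct values on adjacent vertices. -/
noncomputable def chi {V : Type u} (G : SimpleGraph V) (n : ℕ) : ℕ :=
  Nat.card {φ : V → Fin n // ∀ u v, G.Adj u v → φ u ≠ φ v}

/-- **Q1 of MP_f4be1e_co is true.** Every finite simple graph `G` on `d ≥ 1` vertices has exactly
one polynomial `h` with `(∑ χ_G(n) zⁿ) (1-z)^{d+1} = h(z)`; it has degree at most `d`, and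
`h_0 + ⋯ + h_i ≤ h_d + h_{d-1} + ⋯ + h_{d-i+1}` for every `0 ≤ i ≤ d`. -/
theorem result (V : Type u) [Fintype V] (G : SimpleGraph V) (hV : 1 ≤ Fintype.card V) :
    ∃ h : ℤ[X],
      (PowerSeries.mk (fun n => (chi G n : ℤ)) *
        (1 - (PowerSeries.X : PowerSeries ℤ)) ^ (Fintype.card V + 1) = (h : PowerSeries ℤ)) ∧
      (∀ h' : ℤ[X], PowerSeries.mk (fun n => (chi G n : ℤ)) *
        (1 - (PowerSeries.X : PowerSeries ℤ)) ^ (Fintype.card V + 1) = (h' : PowerSeries ℤ) →
          h' = h) ∧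
      h.natDegree ≤ Fintype.card V ∧
      ∀ i ≤ Fintype.card V,
        ∑ j ∈ range (i + 1), h.coeff j ≤ ∑ j ∈ range i, h.coeff (Fintype.card V - j) := by
  obtain ⟨h, hh, hdeg, -, -⟩ := Pool.Agent.R135.ChromSym.exists_num G hV
  refine ⟨h, hh, fun h' hh' => Pool.Agent.R135.ChromSym.IsNum.unique (G := G) hh' hh, hdeg,
    fun i hi => ?_⟩
  have h1 := Pool.Agent.R135.ChromSym.main_ineq hV _ G rfl h hh i hi
  unfold Pool.Agent.R135.ChromSym.beta at h1
  rw [Finset.sum_sub_distrib] at h1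
  rw [Finset.sum_range_succ]
  linarith

end Pool.Agent.Results.MP_f4be1e_co.PartialSumInequality
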